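import Pool.Agent.Helper92.UQ.Goals

set_option autoImplicit false

open MvPolynomial

namespace Pool.Agent.Helper57.UQ.ELIM

lemma res (A : Type) [CommRing A] [IsDomain A] [UniqueFactorizationMonoid A] (F G : Polynomial A)
    (hF : Irreducible F) (hd : 1 ≤ F.natDegree) (hFG : ¬ F ∣ G) :
    ∃ (r : A) (a b : Polynomial A), r ≠ 0 ∧ Polynomial.C r = a * F + b * G := by
  have hprim : F.IsPrimitive := hF.isPrimitive (by omega)
  have hinj : Function.Injective (algebraMap A (FractionRing A)) :=
    IsFractionRing.injective A (FractionRing A)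
  have hirr : Irreducible (F.map (algebraMap A (FractionRing A))) :=
    (hprim.irreducible_iff_irreducible_map_fraction_map).1 hF
  have hnd : ¬ F.map (algebraMap A (FractionRing A)) ∣ G.map (algebraMap A (FractionRing A)) := by
    intro h
    exact hFG ((hprim.dvd_iff_fraction_map_dvd_fraction_map (FractionRing A)).2 h)
  have hcop : IsCoprime (F.map (algebraMap A (FractionRing A)))
      (G.map (algebraMap A (FractionRing A))) := hirr.coprime_iff_not_dvd.2 hnd
  have hne := Polynomial.resultant_ne_zero _ _ hcop
  rw [Polynomial.natDegree_map_eq_of_injective hinj,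
    Polynomial.natDegree_map_eq_of_injective hinj, Polynomial.resultant_map_map] at hne
  have hne' : Polynomial.resultant F G F.natDegree G.natDegree ≠ 0 := by
    intro h0
    apply hne
    rw [h0, map_zero]
  obtain ⟨p, q, -, -, h⟩ := Polynomial.exists_mul_add_mul_eq_C_resultant F G le_rfl le_rfl
    (Or.inl (by omega))
  exact ⟨_, p, q, hne', by rw [← h]; ring⟩

theorem t : Pool.Agent.Helper92.UQ.ELIM := by
  intro K _ σ _ _ i1 h h' hh hh' hass hdeg
  let ε : Option {b // b ≠ i1} ≃ σ := Equiv.optionSubtypeNe i1
  let e : MvPolynomial σ K ≃ₐ[K] Polynomial (MvPolynomial {b // b ≠ i1} K) :=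
    (renameEquiv K ε.symm).trans (optionEquivLeft K {b // b ≠ i1})
  have hdegE : ∀ p : MvPolynomial σ K, (e p).natDegree = p.degreeOf i1 := by
    intro p
    have h1 : e p = optionEquivLeft K {b // b ≠ i1} (rename ε.symm p) := rfl
    rw [h1, natDegree_optionEquivLeft]
    have h2 : (none : Option {b // b ≠ i1}) = ε.symm i1 := by
      rw [Equiv.eq_symm_apply]; rfl
    rw [h2]
    exact degreeOf_rename_of_injective ε.symm.injective i1
  have hirr : Irreducible (e h) := (MulEquiv.irreducible_iff e).2 hh
  have hnd : ¬ e h ∣ e h' := by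
    intro hdv
    rw [map_dvd_iff] at hdv
    exact hass (hh.associated_of_dvd hh' hdv)
  obtain ⟨r, a, b, hr, hab⟩ := res _ (e h) (e h') hirr (by rw [hdegE]; exact hdeg) hnd
  refine ⟨e.symm (Polynomial.C r), e.symm a, e.symm b, ?_, ?_, ?_⟩
  · intro h0
    apply hr
    have : Polynomial.C r = 0 := by
      have := congrArg e h0
      simpa using this
    simpa using this
  · rw [← hdegE, AlgEquiv.apply_symm_apply, Polynomial.natDegree_C]
  · rw [hab, map_add, map_mul, map_mul, AlgEquiv.symm_apply_apply, AlgEquiv.symm_apply_apply]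

end Pool.Agent.Helper57.UQ.ELIM
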